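import Pool.Agent.H83.VU.Targets

/-!
# The double sums in one variable
-/

set_option autoImplicit false

open Finset Pool.Agent.H83.VU

namespace Pool.Agent.H81.VU

theorem Icc_succ (L : ℕ) : Icc (-((L + 1 : ℕ) : ℤ)) ((L + 1 : ℕ) : ℤ) =
    insert ((L + 1 : ℕ) : ℤ) (insert (-((L + 1 : ℕ) : ℤ)) (Icc (-(L : ℤ)) L)) := by
  ext g
  simp only [mem_Icc, mem_insert]
  push_cast
  omega

theorem sum_Icc_succ {M : Type*} [AddCommMonoid M] (f : ℤ → M) (L : ℕ) :
    ∑ g ∈ Icc (-((L + 1 : ℕ) : ℤ)) ((L + 1 : ℕ) : ℤ), f g =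
      f ((L + 1 : ℕ) : ℤ) + (f (-((L + 1 : ℕ) : ℤ)) + ∑ g ∈ Icc (-(L : ℤ)) L, f g) := by
  rw [Icc_succ, Finset.sum_insert, Finset.sum_insert]
  · intro h
    rw [mem_Icc] at h
    push_cast at h
    omega
  · intro h
    rw [mem_insert, mem_Icc] at h
    push_cast at h
    omega

/-- telescoping -/
theorem geom (x : ℝ) (L : ℕ) : (e x - 1) * ∑ h ∈ Icc (-(L : ℤ)) L, e (x * h) =
    e (x * ((L : ℝ) + 1)) - e (-(x * L)) := by
  induction L with
  | zero =>
    have h0 : Icc (-((0 : ℕ) : ℤ)) ((0 : ℕ) : ℤ) = {0} := by simp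
    rw [h0, Finset.sum_singleton]
    simp [e_zero]
  | succ L ih =>
    rw [sum_Icc_succ, mul_add, mul_add, ih]
    have h1 : e x * e (x * (((L + 1 : ℕ) : ℤ) : ℝ)) = e (x * (((L + 1 : ℕ) : ℝ) + 1)) := by
      rw [← e_add]
      congr 1
      push_cast
      ring
    have h2 : e x * e (x * ((-((L + 1 : ℕ) : ℤ) : ℤ) : ℝ)) = e (-(x * L)) := by
      rw [← e_add]
      congr 1
      push_cast
      ring
    have h3 : e (x * (((L + 1 : ℕ) : ℤ) : ℝ)) = e (x * ((L : ℝ) + 1)) := by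
      congr 1
      push_cast
      ring
    have h4 : e (x * ((-((L + 1 : ℕ) : ℤ) : ℤ) : ℝ)) = e (-(x * ((L + 1 : ℕ) : ℝ))) := by
      congr 1
      push_cast
      ring
    rw [sub_mul, sub_mul, h1, h2, one_mul, one_mul, h3, h4]
    ring

theorem norm_e_sub_one {x : ℝ} (hx : |x| ≤ 1 / 2) : 4 * |x| ≤ ‖e x - 1‖ := by
  have h1 : ‖e x - 1‖ = ‖2 * Real.sin (Real.pi * x)‖ := by
    have h2 := Complex.norm_exp_I_mul_ofReal_sub_one (2 * Real.pi * x)
    have h3 : 2 * Real.pi * x / 2 = Real.pi * x := by ring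
    rw [h3] at h2
    rw [← h2]
    unfold e
    rw [mul_comm Complex.I]
  rw [h1, norm_mul, Real.norm_eq_abs, Real.norm_eq_abs, abs_of_pos (by norm_num : (0 : ℝ) < 2)]
  have h4 : |Real.pi * x| ≤ Real.pi / 2 := by
    rw [abs_mul, abs_of_pos Real.pi_pos]
    nlinarith [Real.pi_pos]
  have h5 := Real.mul_abs_le_abs_sin h4
  rw [abs_mul, abs_of_pos Real.pi_pos] at h5
  have h6 : 2 / Real.pi * (Real.pi * |x|) = 2 * |x| := by
    field_simp
  rw [h6] at h5
  linarith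

/-- the inner sum -/
theorem inner_bound {x : ℝ} (L : ℕ) (hx0 : x ≠ 0) (hx : |x| ≤ 1 / 2) :
    ‖∑ h ∈ Icc (-(L : ℤ)) L, e (x * h)‖ ≤ 1 / (2 * |x|) := by
  have h1 := congrArg norm (geom x L)
  rw [norm_mul] at h1
  have h2 : ‖e (x * ((L : ℝ) + 1)) - e (-(x * L))‖ ≤ 2 := by
    refine (norm_sub_le _ _).trans ?_
    rw [norm_e, norm_e]
    norm_num
  have h3 := norm_e_sub_one hx
  have hx' : 0 < |x| := abs_pos.2 hx0
  rw [le_div_iff₀ (by positivity)]
  have h4 := mul_le_mul_of_nonneg_right h3 (norm_nonneg (∑ h ∈ Icc (-(L : ℤ)) L, e (x * h)))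
  linarith

theorem inner_trivial (x : ℝ) (L : ℕ) :
    ‖∑ h ∈ Icc (-(L : ℤ)) L, e (x * h)‖ ≤ 2 * (L : ℝ) + 1 := by
  refine (norm_sum_le _ _).trans ?_
  simp only [norm_e, Finset.sum_const, nsmul_eq_mul, mul_one]
  rw [Int.card_Icc]
  have h1 : ((L : ℤ) + 1 - -(L : ℤ)).toNat = 2 * L + 1 := by omega
  rw [h1]
  push_cast
  exact le_refl _

theorem outer (a : ℝ) (ha : 0 < |a|) (c : ℝ) (K : ℕ) :
    ∑ g ∈ Icc (-(K : ℤ)) K, (if g = 0 then c else 1 / (2 * (|a| * |(g : ℝ)|))) =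
      c + (harmonic K : ℝ) / |a| := by
  induction K with
  | zero =>
    have h0 : Icc (-((0 : ℕ) : ℤ)) ((0 : ℕ) : ℤ) = {0} := by simp
    rw [h0, Finset.sum_singleton]
    simp
  | succ K ih =>
    rw [sum_Icc_succ, ih]
    have h1 : ((K + 1 : ℕ) : ℤ) ≠ 0 := by positivity
    have h2 : -((K + 1 : ℕ) : ℤ) ≠ 0 := neg_ne_zero.2 h1
    rw [if_neg h1, if_neg h2, harmonic_succ]
    have h3 : |(((K + 1 : ℕ) : ℤ) : ℝ)| = (K : ℝ) + 1 := by
      push_cast
      exact abs_of_nonneg (by positivity)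
    have h4 : |((-((K + 1 : ℕ) : ℤ) : ℤ) : ℝ)| = (K : ℝ) + 1 := by
      push_cast
      rw [abs_neg]
      exact abs_of_nonneg (by positivity)
    rw [h3, h4]
    push_cast
    field_simp
    ring

theorem pf_MJ : T_MJ := by
  intro a L
  constructor
  · unfold MM
    calc ∑ g ∈ Icc (-(L : ℤ)) L, ‖∑ h ∈ Icc (-(L : ℤ)) L, e (a * g * h)‖ ≤
        ∑ _g ∈ Icc (-(L : ℤ)) L, (2 * (L : ℝ) + 1) :=
          Finset.sum_le_sum fun g _ => inner_trivial _ _
      _ = (2 * (L : ℝ) + 1) ^ 2 := by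
          rw [Finset.sum_const, nsmul_eq_mul, Int.card_Icc]
          have h1 : ((L : ℤ) + 1 - -(L : ℤ)).toNat = 2 * L + 1 := by omega
          rw [h1]
          push_cast
          ring
  · intro ha hL haL
    have hL0 : (0 : ℝ) < L := by exact_mod_cast hL
    have h1 : MM a L ≤ ∑ g ∈ Icc (-(L : ℤ)) L,
        (if g = 0 then (2 * (L : ℝ) + 1) else 1 / (2 * (|a| * |(g : ℝ)|))) := by
      unfold MM
      apply Finset.sum_le_sum
      intro g hg
      rw [mem_Icc] at hg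
      by_cases h0 : g = 0
      · rw [if_pos h0]
        exact inner_trivial _ _
      · rw [if_neg h0, ← abs_mul]
        apply inner_bound L
        · exact mul_ne_zero (abs_pos.1 ha) (by exact_mod_cast h0)
        · rw [abs_mul]
          have h2 : |(g : ℝ)| ≤ L := by
            rw [abs_le]
            constructor
            · exact_mod_cast hg.1
            · exact_mod_cast hg.2
          calc |a| * |(g : ℝ)| ≤ |a| * L := mul_le_mul_of_nonneg_left h2 ha.le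
            _ ≤ 1 / 2 := haL
    rw [outer a ha] at h1
    have h2 : (harmonic L : ℝ) ≤ 1 + Real.log L := harmonic_le_one_add_log L
    have h3 : (harmonic L : ℝ) / |a| ≤ (1 + Real.log L) / |a| :=
      div_le_div_of_nonneg_right h2 ha.le
    linarith

end Pool.Agent.H81.VU
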