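import Pool.Agent.H83.VU.Targets

/-!
# The number of solutions as a mean value
-/

set_option autoImplicit false

open Finset Pool.Agent.H83.VU

namespace Pool.Agent.H81.VU

theorem dt_ps {k s : ℕ} (a : Fin k → ℝ) (x : Fin s → ℤ) :
    dt a (ps k x) = ∑ i, dt a (pw k (x i)) := by
  unfold dt ps pw
  rw [Finset.sum_comm]
  apply sum_congr rfl
  intro j _
  push_cast
  rw [Finset.mul_sum]

/-- the mean square of an exponential sum -/
theorem mean_sq (hORT : T_ORT) {k : ℕ} {ι : Type*} (I : Finset ι) (g : ι → Fin k → ℤ) (M : ℕ)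
    (hM : 0 < M) (hg : ∀ i ∈ I, ∀ j ∈ I, ∀ t, |g i t - g j t| < (M : ℤ)) :
    (M : ℝ) ^ k * (((I ×ˢ I).filter fun q => g q.1 = g q.2).card : ℝ) =
      ∑ α ∈ Fintype.piFinset (fun _ : Fin k => range M),
        ‖∑ i ∈ I, e (dt (fun j => (α j : ℝ) / M) (g i))‖ ^ 2 := by
  have hsq : ∀ α : Fin k → ℕ, ((‖∑ i ∈ I, e (dt (fun j => (α j : ℝ) / M) (g i))‖ ^ 2 : ℝ) : ℂ) =
      ∑ q ∈ I ×ˢ I, e ((∑ j, (α j : ℝ) * (((g q.1 - g q.2) j : ℤ) : ℝ)) / M) := by
    intro α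
    rw [Complex.ofReal_pow, ← Complex.mul_conj', map_sum, Finset.sum_mul_sum,
      ← Finset.sum_product']
    apply sum_congr rfl
    intro q _
    rw [← e_neg, ← e_add]
    congr 1
    unfold dt
    rw [← sub_eq_add_neg, ← Finset.sum_sub_distrib, Finset.sum_div]
    apply sum_congr rfl
    intro j _
    rw [Pi.sub_apply]
    push_cast
    ring
  have key : ((M : ℂ) ^ k * (((I ×ˢ I).filter fun q => g q.1 = g q.2).card : ℂ)) =
      ∑ α ∈ Fintype.piFinset (fun _ : Fin k => range M),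
        ((‖∑ i ∈ I, e (dt (fun j => (α j : ℝ) / M) (g i))‖ ^ 2 : ℝ) : ℂ) := by
    rw [Finset.sum_congr rfl fun α _ => hsq α, Finset.sum_comm]
    have h1 : ∀ q ∈ I ×ˢ I, ∑ α ∈ Fintype.piFinset (fun _ : Fin k => range M),
        e ((∑ j, (α j : ℝ) * (((g q.1 - g q.2) j : ℤ) : ℝ)) / M) =
        if g q.1 = g q.2 then (M : ℂ) ^ k else 0 := by
      intro q hq
      rw [mem_product] at hq
      rw [hORT k M (g q.1 - g q.2) hM (fun j => hg _ hq.1 _ hq.2 j)]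
      by_cases h : g q.1 = g q.2
      · rw [if_pos h, if_pos (sub_eq_zero.2 h)]
      · rw [if_neg h, if_neg (fun h' => h (sub_eq_zero.1 h'))]
    rw [Finset.sum_congr rfl h1, ← Finset.sum_filter, Finset.sum_const, nsmul_eq_mul, mul_comm]
  have h2 : (((M : ℝ) ^ k * (((I ×ˢ I).filter fun q => g q.1 = g q.2).card : ℝ) : ℝ) : ℂ) =
      ((∑ α ∈ Fintype.piFinset (fun _ : Fin k => range M),
        ‖∑ i ∈ I, e (dt (fun j => (α j : ℝ) / M) (g i))‖ ^ 2 : ℝ) : ℂ) := by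
    rw [Complex.ofReal_sum]
    push_cast at key ⊢
    exact key
  exact Complex.ofReal_injective h2

theorem ps_bound {k s N : ℕ} {x : Fin s → ℤ} (hx : ∀ i, 1 ≤ x i ∧ x i ≤ (N : ℤ)) (t : Fin k) :
    0 ≤ ps k x t ∧ ps k x t ≤ (s : ℤ) * ((N : ℤ) + 1) ^ k := by
  unfold ps
  constructor
  · apply Finset.sum_nonneg
    intro i _
    exact pow_nonneg (by linarith [(hx i).1]) _
  · calc ∑ i, x i ^ ((t : ℕ) + 1) ≤ ∑ _i : Fin s, ((N : ℤ) + 1) ^ k := by
          apply Finset.sum_le_sum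
          intro i _
          calc x i ^ ((t : ℕ) + 1) ≤ ((N : ℤ) + 1) ^ ((t : ℕ) + 1) :=
                pow_le_pow_left₀ (by linarith [(hx i).1]) (by linarith [(hx i).2]) _
            _ ≤ ((N : ℤ) + 1) ^ k := pow_le_pow_right₀ (by linarith [Int.natCast_nonneg N]) t.2
      _ = (s : ℤ) * ((N : ℤ) + 1) ^ k := by
          rw [Finset.sum_const, Finset.card_univ, Fintype.card_fin, nsmul_eq_mul]

theorem pf_REP (hORT : T_ORT) : T_REP := by
  intro k s N X hX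
  refine ⟨(k + s) * (N + 1) ^ k + 1, fun M hM A hA => ?_⟩
  have hM0 : 0 < M := lt_of_lt_of_le (Nat.succ_pos _) hM
  have hM' : ((k : ℤ) + s) * ((N : ℤ) + 1) ^ k < (M : ℤ) := by
    have h1 : (k + s) * (N + 1) ^ k < M := hM
    exact_mod_cast h1
  set I : Finset ((Fin k → ℤ) × (Fin s → ℤ)) := X ×ˢ vec s A with hI
  have hbox : ∀ q ∈ I, ∀ t : Fin k, 0 ≤ (ps k q.1 + ps k q.2) t ∧
      (ps k q.1 + ps k q.2) t ≤ ((k : ℤ) + s) * ((N : ℤ) + 1) ^ k := by
    intro q hq t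
    rw [hI, mem_product] at hq
    have h1 : ∀ i, 1 ≤ q.1 i ∧ q.1 i ≤ (N : ℤ) := fun i => mem_Icc.1 (mem_vec.1 (hX hq.1) i)
    have h2 : ∀ i, 1 ≤ q.2 i ∧ q.2 i ≤ (N : ℤ) := fun i => mem_Icc.1 (hA (mem_vec.1 hq.2 i))
    have h3 := ps_bound h1 t
    have h4 := ps_bound h2 t
    rw [Pi.add_apply]
    constructor
    · linarith [h3.1, h4.1]
    · calc ps k q.1 t + ps k q.2 t ≤ (k : ℤ) * ((N : ℤ) + 1) ^ k + (s : ℤ) * ((N : ℤ) + 1) ^ k :=
            add_le_add h3.2 h4.2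
        _ = _ := by ring
  have hmean := mean_sq hORT I (fun q => ps k q.1 + ps k q.2) M hM0 (by
    intro i hi j hj t
    have h1 := hbox i hi t
    have h2 := hbox j hj t
    rw [abs_lt]
    constructor
    · linarith [h1.1, h2.2]
    · linarith [h1.2, h2.1])
  have hcard : ((I ×ˢ I).filter fun q => ps k q.1.1 + ps k q.1.2 = ps k q.2.1 + ps k q.2.2).card =
      cA k s X A := by
    unfold cA
    apply Finset.card_nbij' (fun q => ((q.1.1, q.2.1), (q.1.2, q.2.2)))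
      (fun q => ((q.1.1, q.2.1), (q.1.2, q.2.2)))
    · intro q hq
      simp only [hI, coe_filter, mem_product, Set.mem_ofPred_eq] at hq ⊢
      exact ⟨⟨⟨hq.1.1.1, hq.1.2.1⟩, ⟨hq.1.1.2, hq.1.2.2⟩⟩, hq.2⟩
    · intro q hq
      simp only [hI, coe_filter, mem_product, Set.mem_ofPred_eq] at hq ⊢
      exact ⟨⟨⟨hq.1.1.1, hq.1.2.1⟩, ⟨hq.1.1.2, hq.1.2.2⟩⟩, hq.2⟩
    · intro q _
      rfl
    · intro q _
      rfl
  rw [← hcard, hmean]
  apply Finset.sum_congr rfl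
  intro α _
  have h1 : ∑ i ∈ I, e (dt (fun j => (α j : ℝ) / M) (ps k i.1 + ps k i.2)) =
      (∑ x ∈ X, e (dt (fun j => (α j : ℝ) / M) (ps k x))) *
        (∑ n ∈ A, e (dt (fun j => (α j : ℝ) / M) (pw k n))) ^ s := by
    have h2 : (∑ n ∈ A, e (dt (fun j => (α j : ℝ) / M) (pw k n))) ^ s =
        ∑ u ∈ vec s A, e (dt (fun j => (α j : ℝ) / M) (ps k u)) := by
      rw [Finset.sum_pow']
      apply Finset.sum_congr rfl
      intro u _
      rw [dt_ps, e_sum]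
    rw [h2, Finset.sum_mul_sum, hI, ← Finset.sum_product']
    apply Finset.sum_congr rfl
    intro q _
    rw [dt_add, e_add]
  rw [h1, norm_mul, norm_pow, mul_pow, ← pow_mul, mul_comm s 2]

end Pool.Agent.H81.VU
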