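import Pool.Agent.H83.VU.Targets

/-!
# Reduction to one residue class
-/

set_option autoImplicit false

open Finset Pool.Agent.H83.VU

namespace Pool.Agent.H81.VU

/-- the residue class of `a` modulo `p` -/
noncomputable def cls (N p a : ℕ) : Finset ℤ := (Icc 1 (N : ℤ)).filter fun n => (p : ℤ) ∣ n - a

theorem sum_cls {p : ℕ} (hp : 1 ≤ p) (N : ℕ) (f : ℤ → ℂ) :
    ∑ n ∈ Icc 1 (N : ℤ), f n = ∑ a ∈ range p, ∑ n ∈ cls N p a, f n := by
  have hp' : (0 : ℤ) < p := by exact_mod_cast hp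
  rw [← Finset.sum_fiberwise_of_maps_to (s := Icc 1 (N : ℤ)) (t := range p)
    (g := fun n : ℤ => (n % (p : ℤ)).toNat)]
  · apply Finset.sum_congr rfl
    intro a ha
    rw [mem_range] at ha
    apply Finset.sum_congr _ (fun _ _ => rfl)
    unfold cls
    apply Finset.filter_congr
    intro n _
    have h1 : 0 ≤ n % (p : ℤ) := Int.emod_nonneg n hp'.ne'
    have h2 : n % (p : ℤ) < p := Int.emod_lt_of_pos n hp'
    constructor
    · intro h
      have h3 : n % (p : ℤ) = a := by omega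
      rw [← h3]
      exact Int.dvd_self_sub_emod
    · intro h
      have h3 : n % (p : ℤ) = (a : ℤ) % (p : ℤ) := Int.emod_eq_emod_iff_emod_sub_eq_zero.2
        (Int.emod_eq_zero_of_dvd h)
      have h4 : (a : ℤ) % (p : ℤ) = a :=
        Int.emod_eq_of_lt (Int.natCast_nonneg a) (by exact_mod_cast ha)
      rw [h3, h4]
      exact Int.toNat_natCast a
  · intro n _
    have h1 : 0 ≤ n % (p : ℤ) := Int.emod_nonneg n hp'.ne'
    have h2 : n % (p : ℤ) < p := Int.emod_lt_of_pos n hp'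
    rw [mem_range]
    omega

theorem pf_HOL (hREP : T_REP) : T_HOL := by
  intro k s N p X hs hp hX
  obtain ⟨M₀, hM₀⟩ := hREP k s N X hX
  set M : ℕ := max M₀ 1 with hM
  have hM1 : 0 < M := lt_of_lt_of_le zero_lt_one (le_max_right _ _)
  have hMp : (0 : ℝ) < (M : ℝ) ^ k := by positivity
  have hsub : ∀ a, cls N p a ⊆ Icc 1 (N : ℤ) := fun a => Finset.filter_subset _ _
  obtain ⟨a, ha, hmax⟩ := Finset.exists_max_image (range p) (fun a => cA k s X (cls N p a))
    ⟨0, mem_range.2 hp⟩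
  refine ⟨a, mem_range.1 ha, ?_⟩
  change cA k s X (Icc 1 (N : ℤ)) ≤ p ^ (2 * s) * cA k s X (cls N p a)
  have hall := hM₀ M (le_max_left _ _) (Icc 1 (N : ℤ)) subset_rfl
  have hcl : ∀ b, (M : ℝ) ^ k * (cA k s X (cls N p b) : ℝ) = _ :=
    fun b => hM₀ M (le_max_left _ _) (cls N p b) (hsub b)
  obtain ⟨m, hm⟩ : ∃ m, 2 * s = m + 1 := ⟨2 * s - 1, by omega⟩
  have hp0 : (0 : ℝ) < (p : ℝ) := by exact_mod_cast hp
  have hpoint : ∀ α : Fin k → ℕ,
      ‖∑ n ∈ Icc 1 (N : ℤ), e (dt (fun j => (α j : ℝ) / M) (pw k n))‖ ^ (2 * s) ≤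
      (p : ℝ) ^ m * ∑ b ∈ range p,
        ‖∑ n ∈ cls N p b, e (dt (fun j => (α j : ℝ) / M) (pw k n))‖ ^ (2 * s) := by
    intro α
    rw [sum_cls hp]
    rw [hm]
    have h1 := norm_sum_le (range p)
      (fun b => ∑ n ∈ cls N p b, e (dt (fun j => (α j : ℝ) / M) (pw k n)))
    have h2 := pow_le_pow_left₀ (norm_nonneg _) h1 (m + 1)
    have h3 := pow_sum_div_card_le_sum_pow (s := range p)
      (f := fun b => ‖∑ n ∈ cls N p b, e (dt (fun j => (α j : ℝ) / M) (pw k n))‖) (n := m)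
      (fun b _ => norm_nonneg _)
    rw [Finset.card_range, div_le_iff₀ (by positivity)] at h3
    calc _ ≤ _ := h2
      _ ≤ _ := h3
      _ = _ := mul_comm _ _
  have hmain : (M : ℝ) ^ k * (cA k s X (Icc 1 (N : ℤ)) : ℝ) ≤
      (p : ℝ) ^ m * ∑ b ∈ range p, (M : ℝ) ^ k * (cA k s X (cls N p b) : ℝ) := by
    rw [hall]
    simp_rw [hcl]
    rw [Finset.sum_comm, Finset.mul_sum]
    apply Finset.sum_le_sum
    intro α _
    rw [← Finset.mul_sum]
    calc _ ≤ _ := mul_le_mul_of_nonneg_left (hpoint α) (by positivity)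
      _ = _ := by ring
  have hmain2 : (M : ℝ) ^ k * (cA k s X (Icc 1 (N : ℤ)) : ℝ) ≤
      (M : ℝ) ^ k * ((p : ℝ) ^ (2 * s) * (cA k s X (cls N p a) : ℝ)) := by
    calc (M : ℝ) ^ k * (cA k s X (Icc 1 (N : ℤ)) : ℝ) ≤ _ := hmain
      _ ≤ (p : ℝ) ^ m * ∑ _b ∈ range p, (M : ℝ) ^ k * (cA k s X (cls N p a) : ℝ) := by
          apply mul_le_mul_of_nonneg_left _ (by positivity)
          apply Finset.sum_le_sum
          intro b hb
          apply mul_le_mul_of_nonneg_left _ hMp.le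
          exact_mod_cast hmax b hb
      _ = (M : ℝ) ^ k * ((p : ℝ) ^ (2 * s) * (cA k s X (cls N p a) : ℝ)) := by
          rw [Finset.sum_const, Finset.card_range, nsmul_eq_mul, hm, pow_succ]
          ring
  have hfin := le_of_mul_le_mul_left hmain2 hMp
  exact_mod_cast hfin

end Pool.Agent.H81.VU
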